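import Mathlib
import Pool.Agent.H977.PW.Abs

set_option autoImplicit false

/-!
# Perfect powers in divergent trajectories

Let `S` be a finite set of primes and `K` a positive integer. Call an odd integer special if it is
`u y ^ k` with `2 ≤ k ≤ K` and `u` composed of primes of `S` (for instance, a perfect power with exponent
at most `K`). There is `c > 0`, depending only on `S` and `K`, such that in every divergent trajectory of
the 3x+1 map, from some point on, at most `π(K) + 1` of the terms `T^k, T^(k+1), ..., T^(k+n)` with
`n ≤ c log |T^k|` are special. In particular the special terms have density zero.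

Proof: for the terms `z_i` of a trajectory of `x` and `i ≤ c log |x|` the numbers `3^(K-k_i) 2^(h_i) z_i`
are different integers which differ from each other by less than `|x| ^ (1/8)`. If two of them were
`c Y ^ k` and `c' Z ^ k` with `k ≥ 3` and bounded `c`, `c'`, then `Y / Z` would be too close to the
algebraic number `(c' / c) ^ (1/k)`: this contradicts Roth's theorem, or it is elementary if this number
is rational. If three of them are of the form `c Y ^ 2`, this contradicts the subspace theorem for three
linear forms with quadratic coefficients, again except for the case of rational quotients.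
-/

namespace Pool.Agent.Results.MP_ff4775_nt.PowersInDivergent

open Finset Filter

/-- The 3x+1 map on the integers. -/
def T (n : ℤ) : ℤ := if n % 2 = 0 then n / 2 else (3 * n + 1) / 2

/-- `z = u * y ^ k` with `2 ≤ k ≤ K` and an integer `u` all of whose prime divisors are in `S`, and `z` is
odd. -/
def Special (S : Finset ℕ) (K : ℕ) (z : ℤ) : Prop :=
  z % 2 = 1 ∧ ∃ k : ℕ, 2 ≤ k ∧ k ≤ K ∧ ∃ u y : ℤ, z = u * y ^ k ∧
    ∀ p : ℕ, p.Prime → (p : ℤ) ∣ u → p ∈ S

lemma T_eq : T = Pool.Agent.H977.SP.G 3 1 1 := by
  funext x
  unfold T Pool.Agent.H977.SP.G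
  rw [pow_one]

open Classical in
/-- Let `S` be a finite set and `K` a natural number. There is `c > 0` such that for every integer `n₀`
with a divergent trajectory: (1) for all sufficiently large `k` and all `n ≤ c log |T^k(n₀)|` at most
`π(K) + 1` of the numbers `T^k(n₀), …, T^(k+n)(n₀)` are odd and of the form `u y ^ k'` with `2 ≤ k' ≤ K`
and `u` composed of primes of `S`; (2) the `i` for which `T^i(n₀)` is of this form have density zero. -/
theorem result (S : Finset ℕ) (K : ℕ) :
    ∃ c : ℝ, 0 < c ∧ ∀ n₀ : ℤ, Tendsto (fun k => |T^[k] n₀|) atTop atTop →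
      (∀ᶠ k : ℕ in atTop, ∀ n : ℕ, (n : ℝ) ≤ c * Real.log |((T^[k] n₀ : ℤ) : ℝ)| →
        ((Icc k (k + n)).filter fun i => Special S K (T^[i] n₀)).card ≤
          Nat.primeCounting K + 1) ∧
      Tendsto (fun N : ℕ => (((range N).filter fun i => Special S K (T^[i] n₀)).card : ℝ) / N)
        atTop (nhds 0) := by
  have hQ := Pool.Agent.H977.PW.count_all (a := 3) (b := 1) (r := 1) (by norm_num) (by norm_num)
    le_rfl S K
  obtain ⟨c, hc, x₀, h⟩ := hQ
  refine ⟨c, hc, fun n₀ hdiv => ⟨?_, ?_⟩⟩
  · have hbig : ∀ᶠ k : ℕ in atTop, x₀ ≤ |((T^[k] n₀ : ℤ) : ℝ)| := by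
      have h1 := hdiv.eventually_ge_atTop ⌈x₀⌉
      filter_upwards [h1] with k hk
      rw [← Int.cast_abs]
      exact (Int.le_ceil x₀).trans (by exact_mod_cast hk)
    filter_upwards [hbig] with k hk n hn
    have h1 := h (T^[k] n₀) hk n hn
    refine le_trans (Finset.card_le_card_of_injOn (fun i => i - k) ?_ ?_) h1
    · intro i hi
      rw [Finset.mem_coe, Finset.mem_filter, Finset.mem_Icc] at hi
      rw [Finset.mem_coe, Finset.mem_filter, Finset.mem_range]
      beta_reduce
      refine ⟨by omega, ?_⟩
      have h2 : i = (i - k) + k := by omega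
      have h3 : (Pool.Agent.H977.SP.G 3 1 1)^[i - k] (T^[k] n₀) = T^[i] n₀ := by
        conv_rhs => rw [h2, Function.iterate_add_apply]
        rw [T_eq]
      rw [h3]
      exact hi.2
    · intro i hi j hj hij
      rw [Finset.mem_coe, Finset.mem_filter, Finset.mem_Icc] at hi hj
      beta_reduce at hij
      omega
  · have hinj : Function.Injective fun i => (Pool.Agent.H977.SP.G 3 1 1)^[i] n₀ := by
      rw [← T_eq]
      -- otherwise the trajectory would be eventually periodic
      have key : ∀ i j : ℕ, i < j → T^[i] n₀ = T^[j] n₀ → False := by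
        intro i j hij heq
        have hper : ∀ m : ℕ, T^[i + m * (j - i)] n₀ = T^[i] n₀ := by
          intro m
          induction m with
          | zero => simp
          | succ m ih =>
            have h1 : i + (m + 1) * (j - i) = (j - i) + (i + m * (j - i)) := by ring
            rw [h1, Function.iterate_add_apply, ih, ← Function.iterate_add_apply,
              Nat.sub_add_cancel hij.le, heq]
        have h1 := hdiv.eventually_gt_atTop |T^[i] n₀|
        obtain ⟨M, hM⟩ := Filter.eventually_atTop.1 h1
        have h2 := hM (i + M * (j - i)) (by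
          have : M * 1 ≤ M * (j - i) := Nat.mul_le_mul_left M (by omega)
          omega)
        rw [hper M] at h2
        exact lt_irrefl _ h2
      intro i j hij
      rcases Nat.lt_trichotomy i j with h1 | h1 | h1
      · exact (key i j h1 hij).elim
      · exact h1
      · exact (key j i h1 hij.symm).elim
    have h1 := Pool.Agent.H977.PW.unbounded_abs (a := 3) (b := 1) (r := 1)
      (Pool.Agent.H977.PW.UPK S K) (Nat.primeCounting K + 1) ⟨c, hc, x₀, h⟩ n₀ hinj
    rw [T_eq]
    exact h1

end Pool.Agent.Results.MP_ff4775_nt.PowersInDivergent
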