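import Mathlib
import Pool.Agent.H977.PW.SDiv

set_option autoImplicit false

/-!
# The part composed of given primes of the products `∏ (T^k(n₀) - c)` along divergent trajectories

Let `T` be the 3x+1 map and `n₀` an integer with a divergent trajectory, `S` a finite set of primes, `[n]`
the largest divisor of `n` composed of primes of `S`, `c` an integer and `δ > 0`.  Let `P_N` be the product of
the odd numbers among `T^k(n₀)`, `k < N`.  For all large `N`

`∏_{k < N} [T^k(n₀) - c] ≤ |P_N|^δ`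

if `c` is not a periodic point of `T`; if it is, then the same holds for the product over the `k < N` for
which `T^k(n₀) ≢ c mod 2^n` for all `n ≥ 1` with `T^n(c) = c`.  For `c = 0` this says `[P_N] ≤ |P_N|^δ`.  If
`c` is neither periodic nor in the trajectory, then `[Q] ≤ |Q|^δ` for `Q = ∏_{k < N} (T^k(n₀) - c)`, `N` large.
-/

namespace Pool.Agent.Results.MP_ff4775_nt.SmallSParts

open Finset Filter

/-- The 3x+1 map on the integers. -/
def T (n : ℤ) : ℤ := if n % 2 = 0 then n / 2 else (3 * n + 1) / 2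

/-- The part of `x` composed of the primes in `S`. -/
def sPart (S : Finset ℕ) (x : ℤ) : ℕ := ∏ p ∈ S, p ^ (x.natAbs.factorization p)

/-- If `c` is periodic with period `n`, then `z` and `c` are different modulo `2^n`. -/
def Away (c z : ℤ) : Prop :=
  ∀ n : ℕ, 1 ≤ n → T^[n] c = c → ¬ ((2 : ℤ) ^ n ∣ z - c)

/-- The product of the odd numbers among the first `N` terms of the trajectory of `n₀`. -/
def oddProd (n₀ : ℤ) (N : ℕ) : ℤ :=
  ∏ k ∈ (range N).filter (fun k => T^[k] n₀ % 2 = 1), T^[k] n₀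

/-- The product of the numbers `T^k(n₀) - c` for `k < N`. -/
def shiftProd (n₀ c : ℤ) (N : ℕ) : ℤ := ∏ k ∈ range N, (T^[k] n₀ - c)

lemma T_eq : T = Pool.Agent.H977.SP.G 3 1 1 := by
  funext x
  unfold T Pool.Agent.H977.SP.G
  rw [pow_one]

lemma sPart_mul (S : Finset ℕ) (x y : ℤ) (hx : x ≠ 0) (hy : y ≠ 0) :
    sPart S (x * y) = sPart S x * sPart S y := by
  unfold sPart
  rw [← Finset.prod_mul_distrib]
  refine Finset.prod_congr rfl fun p _ => ?_
  rw [Int.natAbs_mul, Nat.factorization_mul (Int.natAbs_ne_zero.2 hx) (Int.natAbs_ne_zero.2 hy),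
    Finsupp.add_apply, pow_add]

lemma sPart_prod (S : Finset ℕ) (s : Finset ℕ) (f : ℕ → ℤ) (hf : ∀ k ∈ s, f k ≠ 0) :
    sPart S (∏ k ∈ s, f k) = ∏ k ∈ s, sPart S (f k) := by
  induction s using Finset.induction_on with
  | empty => simp [sPart]
  | insert z s hz ih =>
    rw [Finset.prod_insert hz, Finset.prod_insert hz, sPart_mul, ih]
    · exact fun w hw => hf w (Finset.mem_insert_of_mem hw)
    · exact hf z (Finset.mem_insert_self _ _)
    · exact Finset.prod_ne_zero_iff.2 fun w hw => hf w (Finset.mem_insert_of_mem hw)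

lemma away_zero (z : ℤ) : Away 0 z ↔ z % 2 = 1 := by
  unfold Away
  constructor
  · intro h
    have h1 := h 1 le_rfl (by simp [T])
    rw [sub_zero, pow_one] at h1
    omega
  · intro h n hn _ hd
    rw [sub_zero] at hd
    have : (2 : ℤ) ∣ z := (dvd_pow_self 2 (by omega)).trans hd
    omega

open Classical in
/-- Let the trajectory of `n₀` be divergent, `S` a finite set and `δ > 0`. (1) For every integer `c` and
all large `N` the product of the `[T^k(n₀) - c]` over the `k < N` with `Away c (T^k(n₀))` is at most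
`|P_N|^δ`. (2) For all large `N` one has `[P_N] ≤ |P_N|^δ`. (3) If `c` is not periodic and not in the
trajectory, then for all large `N` one has `[Q_N] ≤ |Q_N|^δ`, where `Q_N` is the product of the
`T^k(n₀) - c` over all `k < N`. -/
theorem result (n₀ : ℤ) (hdiv : Tendsto (fun k : ℕ => |T^[k] n₀|) atTop atTop) (S : Finset ℕ)
    (δ : ℝ) (hδ : 0 < δ) :
    (∀ c : ℤ, ∀ᶠ N : ℕ in atTop,
      ∏ k ∈ (range N).filter (fun k => Away c (T^[k] n₀)), (sPart S (T^[k] n₀ - c) : ℝ) ≤
        |(oddProd n₀ N : ℝ)| ^ δ) ∧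
    (∀ᶠ N : ℕ in atTop, (sPart S (oddProd n₀ N) : ℝ) ≤ |(oddProd n₀ N : ℝ)| ^ δ) ∧
    (∀ c : ℤ, (∀ n : ℕ, 1 ≤ n → T^[n] c ≠ c) → (∀ k : ℕ, T^[k] n₀ ≠ c) → ∀ᶠ N : ℕ in atTop,
      (sPart S (shiftProd n₀ c N) : ℝ) ≤ |(shiftProd n₀ c N : ℝ)| ^ δ) := by
  have hdiv' : Tendsto (fun k : ℕ => |(Pool.Agent.H977.SP.G 3 1 1)^[k] n₀|) atTop atTop := by
    rw [← T_eq]
    exact hdiv
  -- the trajectory does not meet zero
  have h0 : ∀ k : ℕ, T^[k] n₀ ≠ 0 := by
    intro k hk
    have h1 : ∀ j : ℕ, T^[k + j] n₀ = 0 := by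
      intro j
      induction j with
      | zero => exact hk
      | succ j ih =>
        rw [← add_assoc, Function.iterate_succ_apply', ih]
        simp [T]
    obtain ⟨K, hK⟩ := Filter.eventually_atTop.1 (hdiv.eventually_gt_atTop 0)
    have h2 := hK (k + K) (by omega)
    rw [h1 K] at h2
    simp at h2
  have hR : ∀ i, (1 : ℝ) ≤ |((T^[i] n₀ : ℤ) : ℝ)| := by
    intro i
    rw [← Int.cast_abs]
    exact_mod_cast Int.one_le_abs (h0 i)
  -- the logarithms
  set U : ℕ → ℝ := fun i => Real.log |((T^[i] n₀ : ℤ) : ℝ)| with hU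
  have hU0 : ∀ i, 0 ≤ U i := fun i => Real.log_nonneg (hR i)
  obtain ⟨C, D, hC, hCD⟩ := Pool.Agent.H977.PW.div_even (a := 3) (b := 1) (by norm_num)
    (by norm_num) n₀ hdiv' (by rw [← T_eq]; exact h0)
  rw [← T_eq] at hCD
  have hphi : ∀ (c : ℤ) (N : ℕ), ∑ i ∈ range N,
      Pool.Agent.H977.PW.phic 3 1 S c (T^[i] n₀) =
      ∑ k ∈ (range N).filter (fun k => Away c (T^[k] n₀)), Real.log (sPart S (T^[k] n₀ - c)) := by
    intro c N
    rw [Finset.sum_filter]
    refine Finset.sum_congr rfl fun k _ => ?_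
    unfold Pool.Agent.H977.PW.phic
    have : Pool.Agent.H977.PW.Away 3 1 c (T^[k] n₀) ↔ Away c (T^[k] n₀) := by
      unfold Away Pool.Agent.H977.PW.Away
      rw [T_eq]
    by_cases h : Away c (T^[k] n₀)
    · rw [if_pos h, if_pos (this.2 h)]
      rfl
    · rw [if_neg h, if_neg (fun h' => h (this.1 h'))]
  -- the sum of all logarithms tends to infinity
  have hinf : Tendsto (fun N : ℕ => ∑ i ∈ range N, U i) atTop atTop := by
    obtain ⟨i₀, hi₀⟩ := Filter.eventually_atTop.1 (hdiv.eventually_ge_atTop (3 : ℤ))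
    have hU1 : ∀ i, i₀ ≤ i → 1 ≤ U i := by
      intro i hi
      rw [hU, Real.le_log_iff_exp_le (by linarith [hR i])]
      have h1 : (3 : ℝ) ≤ |((T^[i] n₀ : ℤ) : ℝ)| := by
        rw [← Int.cast_abs]
        exact_mod_cast hi₀ i hi
      have := Real.exp_one_lt_d9
      linarith
    have hlow : ∀ N : ℕ, (N : ℝ) - i₀ ≤ ∑ i ∈ range N, U i := by
      intro N
      induction N with
      | zero => simp
      | succ N ih =>
        rw [Finset.sum_range_succ]
        push_cast
        by_cases hN : i₀ ≤ N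
        · linarith [hU1 N hN]
        · push Not at hN
          have h1 : 0 ≤ ∑ i ∈ range N, U i := Finset.sum_nonneg fun i _ => hU0 i
          have h2 : (N : ℝ) + 1 ≤ i₀ := by exact_mod_cast hN
          linarith [hU0 N]
    refine tendsto_atTop_mono hlow ?_
    exact tendsto_atTop_add_const_right _ _ tendsto_natCast_atTop_atTop
  have main : ∀ c : ℤ, ∀ᶠ N : ℕ in atTop,
      ∏ k ∈ (range N).filter (fun k => Away c (T^[k] n₀)), (sPart S (T^[k] n₀ - c) : ℝ) ≤
        |(oddProd n₀ N : ℝ)| ^ δ := by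
    intro c
    obtain ⟨B, hB⟩ := Pool.Agent.H977.PW.div_all (a := 3) (b := 1) (by norm_num) (by norm_num)
      n₀ hdiv' c S (δ / (2 * C)) (by positivity)
    rw [← T_eq] at hB
    filter_upwards [hinf.eventually_ge_atTop (C * (2 / δ * (δ / (2 * C) * D + B)) + D)] with N hN
    have h1 := hB N
    rw [hphi] at h1
    have h2 := hCD N
    set O := ∑ i ∈ (range N).filter (fun i => T^[i] n₀ % 2 = 1), Real.log |((T^[i] n₀ : ℤ) : ℝ)|
      with hO
    have h3 : ∑ i ∈ range N, U i ≤ C * O + D := h2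
    have h4 : C * (2 / δ * (δ / (2 * C) * D + B)) ≤ C * O := by linarith
    have h5 := le_of_mul_le_mul_left h4 hC
    have h6 : δ / (2 * C) * D + B ≤ δ / 2 * O := by
      have := mul_le_mul_of_nonneg_left h5 (show 0 ≤ δ / 2 by positivity)
      calc δ / (2 * C) * D + B = δ / 2 * (2 / δ * (δ / (2 * C) * D + B)) := by
            field_simp
        _ ≤ _ := this
    have h7 : δ / (2 * C) * ∑ i ∈ range N, U i ≤ δ / 2 * O + δ / (2 * C) * D := by
      have := mul_le_mul_of_nonneg_left h3 (show 0 ≤ δ / (2 * C) by positivity)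
      calc _ ≤ δ / (2 * C) * (C * O + D) := this
        _ = _ := by field_simp
    have h8 : ∑ k ∈ (range N).filter (fun k => Away c (T^[k] n₀)),
        Real.log (sPart S (T^[k] n₀ - c)) ≤ δ * O := by
      have h9 : ∑ i ∈ range N, Real.log |((T^[i] n₀ : ℤ) : ℝ)| = ∑ i ∈ range N, U i := rfl
      rw [h9] at h1
      linarith
    have hpos1 : 0 < |(oddProd n₀ N : ℝ)| := by
      apply abs_pos.2
      unfold oddProd
      exact_mod_cast Finset.prod_ne_zero_iff.2 fun k _ => h0 k
    have hpos2 : 0 < ∏ k ∈ (range N).filter (fun k => Away c (T^[k] n₀)),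
        (sPart S (T^[k] n₀ - c) : ℝ) :=
      Finset.prod_pos fun k _ => by
        exact_mod_cast Pool.Agent.H977.PW.sPart_pos S (T^[k] n₀ - c)
    rw [← Real.log_le_log_iff hpos2 (Real.rpow_pos_of_pos hpos1 δ), Real.log_rpow hpos1,
      Real.log_prod (fun k _ => by
        have : 0 < sPart S (T^[k] n₀ - c) := Pool.Agent.H977.PW.sPart_pos S (T^[k] n₀ - c)
        positivity)]
    have h10 : Real.log |(oddProd n₀ N : ℝ)| = O := by
      unfold oddProd
      push_cast
      rw [Finset.abs_prod, Real.log_prod (fun k _ => by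
        have := hR k
        linarith)]
    rw [h10]
    exact h8
  refine ⟨main, ?_, ?_⟩
  · filter_upwards [main 0] with N hN
    refine le_trans (le_of_eq ?_) hN
    have h3 : (range N).filter (fun k => Away 0 (T^[k] n₀)) =
        (range N).filter (fun k => T^[k] n₀ % 2 = 1) := by
      apply Finset.filter_congr
      intro k _
      exact away_zero _
    rw [h3]
    unfold oddProd
    rw [sPart_prod S _ _ (fun k _ => h0 k)]
    push_cast
    refine Finset.prod_congr rfl fun k _ => ?_
    rw [sub_zero]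
  · intro c hc hmiss
    obtain ⟨B, hB⟩ := Pool.Agent.H977.PW.div_all (a := 3) (b := 1) (by norm_num) (by norm_num)
      n₀ hdiv' c S (δ / 4) (by positivity)
    rw [← T_eq] at hB
    obtain ⟨k₀, hk₀⟩ := Filter.eventually_atTop.1 (hdiv.eventually_ge_atTop (2 * |c| + 4))
    have hV0 : ∀ k, 1 ≤ |((T^[k] n₀ : ℤ) : ℝ) - c| := by
      intro k
      have h1 : 1 ≤ |T^[k] n₀ - c| := Int.one_le_abs (sub_ne_zero.2 (hmiss k))
      have h2 : (1 : ℝ) ≤ ((|T^[k] n₀ - c| : ℤ) : ℝ) := by exact_mod_cast h1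
      rw [Int.cast_abs] at h2
      push_cast at h2
      exact h2
    have hUV : ∀ k, U k ≤ 2 * Real.log |((T^[k] n₀ : ℤ) : ℝ) - c| + if k < k₀ then U k else 0 := by
      intro k
      have h1 := Real.log_nonneg (hV0 k)
      split_ifs with hk
      · linarith
      · have h2 := hk₀ k (by omega)
        have h3 : |T^[k] n₀| ≤ |T^[k] n₀ - c| ^ 2 := by
          have h9 : |T^[k] n₀| ≤ |T^[k] n₀ - c| + |c| := by
            have := abs_add_le (T^[k] n₀ - c) c
            rwa [sub_add_cancel] at this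
          have h10 := abs_nonneg c
          nlinarith
        have h4 : |((T^[k] n₀ : ℤ) : ℝ)| ≤ |((T^[k] n₀ : ℤ) : ℝ) - c| ^ 2 := by
          have h5 : ((|T^[k] n₀| : ℤ) : ℝ) ≤ ((|T^[k] n₀ - c| ^ 2 : ℤ) : ℝ) := by exact_mod_cast h3
          rw [Int.cast_pow, Int.cast_abs, Int.cast_abs] at h5
          push_cast at h5
          exact h5
        have h5 := Real.log_le_log (by linarith [hR k]) h4
        rw [Real.log_pow] at h5
        push_cast at h5
        have h6 : U k = Real.log |((T^[k] n₀ : ℤ) : ℝ)| := rfl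
        linarith
    have hsumUV : ∀ N : ℕ, ∑ i ∈ range N, U i ≤
        2 * ∑ i ∈ range N, Real.log |((T^[i] n₀ : ℤ) : ℝ) - c| + ∑ i ∈ range k₀, U i := by
      intro N
      have h1 := Finset.sum_le_sum (s := range N) fun k _ => hUV k
      rw [Finset.sum_add_distrib, ← Finset.mul_sum, ← Finset.sum_filter] at h1
      have h2 : ∑ k ∈ (range N).filter (fun k => k < k₀), U k ≤ ∑ i ∈ range k₀, U i := by
        apply Finset.sum_le_sum_of_subset_of_nonneg
        · intro k hk
          exact Finset.mem_range.2 (Finset.mem_filter.1 hk).2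
        · intro k _ _
          exact hU0 k
      linarith
    filter_upwards [hinf.eventually_ge_atTop
      (2 * (2 / δ * (δ / 4 * ∑ i ∈ range k₀, U i + B)) + ∑ i ∈ range k₀, U i)] with N hN
    have h1 := hB N
    rw [hphi] at h1
    have h9 : ∑ i ∈ range N, Real.log |((T^[i] n₀ : ℤ) : ℝ)| = ∑ i ∈ range N, U i := rfl
    rw [h9] at h1
    have hfil : (range N).filter (fun k => Away c (T^[k] n₀)) = range N := by
      apply Finset.filter_true_of_mem
      intro k _ n hn hn2
      exact absurd hn2 (hc n hn)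
    rw [hfil] at h1
    have h2 := hsumUV N
    set V := ∑ i ∈ range N, Real.log |((T^[i] n₀ : ℤ) : ℝ) - c| with hV
    set E := ∑ i ∈ range k₀, U i with hE
    have h3 : 2 / δ * (δ / 4 * E + B) ≤ V := by linarith
    have h4 : δ / 4 * E + B ≤ δ / 2 * V := by
      have := mul_le_mul_of_nonneg_left h3 (show 0 ≤ δ / 2 by positivity)
      calc δ / 4 * E + B = δ / 2 * (2 / δ * (δ / 4 * E + B)) := by
            field_simp
        _ ≤ _ := this
    have h5 : ∑ k ∈ range N, Real.log (sPart S (T^[k] n₀ - c)) ≤ δ * V := by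
      have := mul_le_mul_of_nonneg_left h2 (show 0 ≤ δ / 4 by positivity)
      linarith
    have hne : ∀ k ∈ range N, T^[k] n₀ - c ≠ 0 := fun k _ => sub_ne_zero.2 (hmiss k)
    have hpos1 : 0 < |(shiftProd n₀ c N : ℝ)| := by
      apply abs_pos.2
      unfold shiftProd
      exact_mod_cast Finset.prod_ne_zero_iff.2 hne
    have hpos2 : (0 : ℝ) < sPart S (shiftProd n₀ c N) := by
      exact_mod_cast Pool.Agent.H977.PW.sPart_pos S (shiftProd n₀ c N)
    rw [← Real.log_le_log_iff hpos2 (Real.rpow_pos_of_pos hpos1 δ), Real.log_rpow hpos1]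
    have h10 : Real.log |(shiftProd n₀ c N : ℝ)| = V := by
      unfold shiftProd
      push_cast
      rw [Finset.abs_prod, Real.log_prod (fun k _ => by
        have := hV0 k
        linarith)]
    have h11 : Real.log (sPart S (shiftProd n₀ c N)) =
        ∑ k ∈ range N, Real.log (sPart S (T^[k] n₀ - c)) := by
      unfold shiftProd
      rw [sPart_prod S _ _ hne]
      push_cast
      rw [Real.log_prod (fun k _ => by
        have : 0 < sPart S (T^[k] n₀ - c) := Pool.Agent.H977.PW.sPart_pos S (T^[k] n₀ - c)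
        positivity)]
    rw [h10, h11]
    exact h5

end Pool.Agent.Results.MP_ff4775_nt.SmallSParts
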